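import Pool.Agent.H752.NX.Stubs

/-!
# Task X1: the greedy process
-/

namespace Pool.Agent.H752.NX

open Pool.Agent.NPC Pool.Agent.H620R2.Gauge Pool.Agent.H752.GE Finset

namespace X1

theorem val_append (y : List Bool) (b : Bool) : val (y ++ [b]) = 2 * val y + b.toNat := by
  simp [val, List.foldl_append]

theorem exists_val : ∀ (n v : ℕ), v < 2 ^ n → ∃ y : List Bool, y.length = n ∧ val y = v := by
  intro n
  induction n with
  | zero =>
    intro v hv
    have hv0 : v = 0 := by simpa using hv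
    exact ⟨[], rfl, by rw [hv0]; rfl⟩
  | succ n ih =>
    intro v hv
    obtain ⟨y, hy, hv'⟩ := ih (v / 2) (by rw [pow_succ] at hv; omega)
    refine ⟨y ++ [decide (v % 2 = 1)], by simp [hy], ?_⟩
    rw [val_append, hv']
    rcases Nat.mod_two_eq_zero_or_one v with h | h
    · simp [h]; omega
    · simp [h]; omega

section

variable {I : Type} (σ : I → ℕ) (pos : I → List Bool → List Bool → List Bool)
  (Acc : I → Oracle → Prop) (S : Finset I) (B : Oracle)

/-- the number of changes for the smaller ones -/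
def J (t : I → ℕ) (i : I) : ℕ := ∑ j ∈ S.filter (fun j => 2 * σ j ≤ σ i), t j

/-- the invariants -/
structure Inv (t : I → ℕ) (A : Oracle) : Prop where
  off : ∀ u, (∀ i y z, u ≠ pos i y z) → A u = B u
  low : ∀ i ∈ S, ∀ y z : List Bool, A (pos i y z) = true → val y ≤ t i
  top : ∀ i ∈ S, t i = 0 ∨ ∃ y : List Bool, y.length = 4 * σ i + 1 ∧ val y = t i ∧
    On (fun i => 6 * σ i + 1) pos i y A
  even : ∀ i ∈ S, ¬ Odd (t i) → t i ≤ 2 * J σ S t i
  acc : ∀ i ∈ S, Odd (t i) → Acc i A → t i ≤ 2 * J σ S t i + 1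
  rej : ∀ i ∈ S, Odd (t i) → ¬ Acc i A → t i + 1 ≤ 2 * J σ S t i

variable {σ pos Acc S B}

theorem Inv.le {t : I → ℕ} {A : Oracle} (h : Inv σ pos Acc S B t A) {i : I} (hi : i ∈ S) :
    t i ≤ 2 * J σ S t i + 1 := by
  by_cases h1 : Odd (t i)
  · by_cases h2 : Acc i A
    · exact h.acc i hi h1 h2
    · have := h.rej i hi h1 h2
      omega
  · have := h.even i hi h1
    omega

theorem Inv.bound (hσ : ∀ i, 2 ≤ σ i)
    (hcard : ∀ (s : ℕ) (S : Finset I), (∀ i ∈ S, σ i ≤ s) → S.card ≤ 2 ^ (2 * s))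
    {t : I → ℕ} {A : Oracle} (h : Inv σ pos Acc S B t A) :
    ∀ (n : ℕ) (i : I), σ i ≤ n → 2 * J σ S t i + 1 ≤ 2 ^ (4 * σ i) := by
  intro n
  induction n with
  | zero =>
    intro i hi
    have := hσ i
    omega
  | succ n ih =>
    intro i hi
    have h1 : ∀ j ∈ S.filter (fun j => 2 * σ j ≤ σ i), t j ≤ 2 ^ (4 * (σ i / 2)) := by
      intro j hj
      rw [Finset.mem_filter] at hj
      have h2 := hσ j
      have h3 := ih j (by omega)
      have h4 := h.le hj.1
      have h5 : (2 : ℕ) ^ (4 * σ j) ≤ 2 ^ (4 * (σ i / 2)) :=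
        Nat.pow_le_pow_right (by norm_num) (by omega)
      omega
    have h2 : (S.filter (fun j => 2 * σ j ≤ σ i)).card ≤ 2 ^ (2 * (σ i / 2)) := by
      apply hcard
      intro j hj
      rw [Finset.mem_filter] at hj
      omega
    have h3 : J σ S t i ≤ 2 ^ (2 * (σ i / 2)) * 2 ^ (4 * (σ i / 2)) := by
      unfold J
      refine (Finset.sum_le_card_nsmul _ _ _ h1).trans ?_
      rw [smul_eq_mul]
      exact Nat.mul_le_mul_right _ h2
    rw [← pow_add] at h3
    have h4 := hσ i
    have h5 : (2 : ℕ) ^ (2 * (σ i / 2) + 4 * (σ i / 2)) ≤ 2 ^ (4 * σ i - 2) :=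
      Nat.pow_le_pow_right (by norm_num) (by omega)
    have h6 : (2 : ℕ) ^ (4 * σ i) = 2 ^ (4 * σ i - 2) * 4 := by
      rw [show (4 : ℕ) = 2 ^ 2 from rfl, ← pow_add]
      congr 1
      omega
    have h7 : 1 ≤ (2 : ℕ) ^ (4 * σ i - 2) := Nat.one_le_two_pow
    omega

/-- The start. -/
theorem exists_start : ∃ A : Oracle, Inv σ pos Acc S B (fun _ => 0) A := by
  classical
  refine ⟨fun u => if ∃ i y z, u = pos i y z then false else B u, ?_, ?_, ?_, ?_, ?_, ?_⟩
  · intro u hu
    show (if ∃ i y z, u = pos i y z then false else B u) = B u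
    rw [if_neg]
    rintro ⟨i, y, z, h⟩
    exact hu i y z h
  · intro i _ y z h
    exfalso
    have h1 : (if ∃ i' y' z', pos i y z = pos i' y' z' then false else B (pos i y z)) = true := h
    rw [if_pos ⟨i, y, z, rfl⟩] at h1
    exact Bool.false_ne_true h1
  · intro i _
    exact Or.inl rfl
  · intro i _ _
    exact Nat.zero_le _
  · intro i _ h
    simp at h
  · intro i _ h
    simp at h

theorem J_update [DecidableEq I] (t : I → ℕ) (k i : I) (hk : k ∈ S) :
    J σ S (Function.update t k (t k + 1)) i =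
      J σ S t i + (if 2 * σ k ≤ σ i then 1 else 0) := by
  unfold J
  by_cases h : 2 * σ k ≤ σ i
  · have hk' : k ∈ S.filter (fun j => 2 * σ j ≤ σ i) := Finset.mem_filter.2 ⟨hk, h⟩
    rw [if_pos h, ← Finset.add_sum_erase _ _ hk', ← Finset.add_sum_erase _ t hk']
    rw [Function.update_self]
    have h1 : ∑ x ∈ (S.filter (fun j => 2 * σ j ≤ σ i)).erase k,
        Function.update t k (t k + 1) x =
        ∑ x ∈ (S.filter (fun j => 2 * σ j ≤ σ i)).erase k, t x := by
      refine Finset.sum_congr rfl fun x hx => ?_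
      rw [Function.update_of_ne (Finset.ne_of_mem_erase hx)]
    rw [h1]
    omega
  · rw [if_neg h, add_zero]
    refine Finset.sum_congr rfl fun x hx => ?_
    rw [Function.update_of_ne]
    rintro rfl
    exact h (Finset.mem_filter.1 hx).2

theorem step (hσ : ∀ i, 2 ≤ σ i)
    (hcard : ∀ (s : ℕ) (S : Finset I), (∀ i ∈ S, σ i ≤ s) → S.card ≤ 2 ^ (2 * s))
    (hpos : ∀ i y z i' y' z', pos i y z = pos i' y' z' → i = i' ∧ y = y' ∧ z = z')
    (hAcc : ∀ i A, Acc i A → ∃ C : Finset (List Bool), C.card ≤ 2 ^ σ i ∧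
      ∀ A' : Oracle, (∀ u ∈ C, A' u = A u) → Acc i A')
    {t : I → ℕ} {A : Oracle} (h : Inv σ pos Acc S B t A) {k : I} (hk : k ∈ S)
    (hv : ¬ (Acc k A ↔ Odd (t k))) :
    ∃ (t' : I → ℕ) (A' : Oracle), Inv σ pos Acc S B t' A' ∧
      ∑ i ∈ S, t' i = ∑ i ∈ S, t i + 1 := by
  classical
  have hb := h.bound hσ hcard (σ k) k le_rfl
  have hσk := hσ k
  -- the size of `t k`
  have htk : t k + 1 < 2 ^ (4 * σ k + 1) := by
    have h1 : (2 : ℕ) ^ (4 * σ k + 1) = 2 ^ (4 * σ k) * 2 := pow_succ _ _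
    have h2 := h.le hk
    by_cases h3 : Odd (t k)
    · have h4 : ¬ Acc k A := fun h4 => hv ⟨fun _ => h3, fun _ => h4⟩
      have h5 := h.rej k hk h3 h4
      omega
    · have h5 := h.even k hk h3
      have h6 : 1 ≤ (2 : ℕ) ^ (4 * σ k) := Nat.one_le_two_pow
      omega
  obtain ⟨y, hy, hyv⟩ := exists_val (4 * σ k + 1) (t k + 1) htk
  -- the certificates
  choose! C hC1 hC2 using hAcc
  set T : Finset I := S.filter (fun j => σ j < 2 * σ k ∧ Acc j A) with hT
  set F : Finset (List Bool) := T.biUnion (fun j => C j A) with hF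
  have hFc : F.card < 2 ^ (6 * σ k + 1) := by
    have h1 : F.card ≤ ∑ j ∈ T, (C j A).card := Finset.card_biUnion_le
    have h2 : ∑ j ∈ T, (C j A).card ≤ T.card * 2 ^ (2 * σ k - 1) := by
      refine (Finset.sum_le_card_nsmul _ _ (2 ^ (2 * σ k - 1)) ?_).trans (by rw [smul_eq_mul])
      intro j hj
      rw [hT, Finset.mem_filter] at hj
      exact (hC1 j A hj.2.2).trans (Nat.pow_le_pow_right (by norm_num) (by omega))
    have h3 : T.card ≤ 2 ^ (2 * (2 * σ k - 1)) := by
      apply hcard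
      intro j hj
      rw [hT, Finset.mem_filter] at hj
      omega
    have h4 : T.card * 2 ^ (2 * σ k - 1) ≤ 2 ^ (2 * (2 * σ k - 1)) * 2 ^ (2 * σ k - 1) :=
      Nat.mul_le_mul_right _ h3
    rw [← pow_add] at h4
    have h5 : (2 : ℕ) ^ (2 * (2 * σ k - 1) + (2 * σ k - 1)) < 2 ^ (6 * σ k + 1) :=
      Nat.pow_lt_pow_right (by norm_num) (by omega)
    omega
  obtain ⟨z, hz, hzF⟩ : ∃ z : List Bool, z.length = 6 * σ k + 1 ∧ pos k y z ∉ F := by
    by_contra hcon
    push Not at hcon
    have h1 : ((univ : Finset (Fin (6 * σ k + 1) → Bool)).image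
        (fun w => pos k y (List.ofFn w))) ⊆ F := by
      intro u hu
      rw [Finset.mem_image] at hu
      obtain ⟨w, _, rfl⟩ := hu
      exact hcon (List.ofFn w) List.length_ofFn
    have h2 := Finset.card_le_card h1
    rw [Finset.card_image_of_injective _ (by
      intro w w' hw
      exact List.ofFn_injective (hpos _ _ _ _ _ _ hw).2.2)] at h2
    rw [Finset.card_univ, Fintype.card_fun, Fintype.card_fin, Fintype.card_bool] at h2
    omega
  set A' : Oracle := Function.update A (pos k y z) true with hA'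
  set t' : I → ℕ := Function.update t k (t k + 1) with ht'
  -- preserved computations
  have hpres : ∀ j ∈ S, σ j < 2 * σ k → Acc j A → Acc j A' := by
    intro j hj hjk hjA
    apply hC2 j A hjA
    intro u hu
    rw [hA', Function.update_of_ne]
    rintro rfl
    apply hzF
    rw [hF, Finset.mem_biUnion]
    exact ⟨j, Finset.mem_filter.2 ⟨hj, hjk, hjA⟩, hu⟩
  have hJ : ∀ i, J σ S t' i = J σ S t i + (if 2 * σ k ≤ σ i then 1 else 0) :=
    fun i => J_update t k i hk
  have hJk : J σ S t' k = J σ S t k := by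
    rw [hJ, if_neg (by omega), add_zero]
  have ht'k : t' k = t k + 1 := by rw [ht', Function.update_self]
  have ht'i : ∀ i, i ≠ k → t' i = t i := fun i hi => by rw [ht', Function.update_of_ne hi]
  refine ⟨t', A', ⟨?_, ?_, ?_, ?_, ?_, ?_⟩, ?_⟩
  · intro u hu
    rw [hA', Function.update_of_ne (hu k y z)]
    exact h.off u hu
  · intro i hi y' z' hA
    by_cases he : pos i y' z' = pos k y z
    · obtain ⟨rfl, rfl, rfl⟩ := hpos _ _ _ _ _ _ he
      rw [hyv, ht'k]
    · rw [hA', Function.update_of_ne he] at hA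
      have h1 := h.low i hi y' z' hA
      by_cases hik : i = k
      · subst hik
        omega
      · rw [ht'i i hik]
        exact h1
  · intro i hi
    by_cases hik : i = k
    · subst hik
      refine Or.inr ⟨y, hy, by rw [hyv, ht'k], z, hz, ?_⟩
      rw [hA', Function.update_self]
    · rw [ht'i i hik]
      rcases h.top i hi with h1 | ⟨y', h1, h2, z', h3, h4⟩
      · exact Or.inl h1
      · refine Or.inr ⟨y', h1, h2, z', h3, ?_⟩
        rw [hA', Function.update_of_ne]
        · exact h4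
        · intro he
          exact hik (hpos _ _ _ _ _ _ he).1
  · intro i hi ho
    by_cases hik : i = k
    · subst hik
      rw [ht'k] at ho ⊢
      rw [hJk]
      have h1 : Odd (t i) := by
        by_contra h1
        apply ho
        rw [Nat.not_odd_iff_even] at h1
        exact h1.add_one
      have h2 : ¬ Acc i A := fun h2 => hv ⟨fun _ => h1, fun _ => h2⟩
      exact h.rej i hi h1 h2
    · rw [ht'i i hik] at ho ⊢
      have := h.even i hi ho
      rw [hJ]
      omega
  · intro i hi ho ha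
    by_cases hik : i = k
    · subst hik
      rw [ht'k] at ho ⊢
      rw [hJk]
      have h1 : ¬ Odd (t i) := by
        intro h1
        have h2 := h1.add_one
        exact (Nat.not_even_iff_odd.2 ho) h2
      have := h.even i hi h1
      omega
    · rw [ht'i i hik] at ho ⊢
      have := h.le hi
      rw [hJ]
      omega
  · intro i hi ho ha
    by_cases hik : i = k
    · subst hik
      rw [ht'k] at ho ⊢
      have h1 : ¬ Odd (t i) := by
        intro h1
        have h2 := h1.add_one
        exact (Nat.not_even_iff_odd.2 ho) h2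
      have h2 : Acc i A := by
        by_contra h2
        exact hv ⟨fun h3 => absurd h3 h2, fun h3 => absurd h3 h1⟩
      exact absurd (hpres i hi (by omega) h2) ha
    · rw [ht'i i hik] at ho ⊢
      rw [hJ]
      by_cases hs : 2 * σ k ≤ σ i
      · rw [if_pos hs]
        have := h.le hi
        omega
      · rw [if_neg hs]
        have h1 : ¬ Acc i A := fun h1 => ha (hpres i hi (by omega) h1)
        have := h.rej i hi ho h1
        omega
  · rw [← Finset.add_sum_erase _ _ hk, ← Finset.add_sum_erase _ t hk, ht'k]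
    have h1 : ∑ x ∈ S.erase k, t' x = ∑ x ∈ S.erase k, t x :=
      Finset.sum_congr rfl fun x hx => ht'i x (Finset.ne_of_mem_erase hx)
    rw [h1]
    omega

end

end X1

open X1 in
theorem t_fin : St_fin := by
  intro I σ hσ hcard pos hpos Acc hAcc S B
  obtain ⟨t, A, h, hgood⟩ : ∃ (t : I → ℕ) (A : Oracle), Inv σ pos Acc S B t A ∧
      ∀ k ∈ S, (Acc k A ↔ Odd (t k)) := by
    by_contra hcon
    push Not at hcon
    have h1 : ∀ n : ℕ, ∃ (t : I → ℕ) (A : Oracle), Inv σ pos Acc S B t A ∧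
        n ≤ ∑ i ∈ S, t i := by
      intro n
      induction n with
      | zero =>
        obtain ⟨A, hA⟩ := exists_start (σ := σ) (pos := pos) (Acc := Acc) (S := S) (B := B)
        exact ⟨_, A, hA, Nat.zero_le _⟩
      | succ n ih =>
        obtain ⟨t, A, h, hn⟩ := ih
        obtain ⟨k, hk, hv⟩ := hcon t A h
        have hv' : ¬ (Acc k A ↔ Odd (t k)) := by
          intro he
          rcases hv with ⟨h2, h3⟩ | ⟨h2, h3⟩
          · exact h3 (he.1 h2)
          · exact h2 (he.2 h3)
        obtain ⟨t', A', h', hs⟩ := step hσ hcard hpos hAcc h hk hv'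
        exact ⟨t', A', h', by omega⟩
    obtain ⟨t, A, h, hn⟩ := h1 (∑ i ∈ S, 2 ^ (4 * σ i) + 1)
    have h2 : ∑ i ∈ S, t i ≤ ∑ i ∈ S, 2 ^ (4 * σ i) := by
      refine Finset.sum_le_sum fun i hi => ?_
      exact (h.le hi).trans (h.bound hσ hcard (σ i) i le_rfl)
    omega
  refine ⟨A, h.off, fun i hi => ?_⟩
  have h0 : ∃ s : List Bool, s.length = 4 * σ i + 1 ∧ val s = t i ∧
      (val s = 0 ∨ On (fun i => 6 * σ i + 1) pos i s A) := by
    rcases h.top i hi with h1 | ⟨y, h1, h2, h3⟩
    · obtain ⟨s, hs1, hs2⟩ := exists_val (4 * σ i + 1) 0 (by positivity)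
      exact ⟨s, hs1, by rw [hs2, h1], Or.inl hs2⟩
    · exact ⟨y, h1, h2, Or.inr h3⟩
  obtain ⟨s, hs1, hs2, hs3⟩ := h0
  refine ⟨s, hs1, hs3, ?_, ?_⟩
  · rintro y hy hlt ⟨z, _, hz⟩
    have h1 := h.low i hi y z hz
    omega
  · rw [hs2]
    exact hgood i hi

end Pool.Agent.H752.NX
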