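import Pool.Agent.H752.NX.Stubs
import Pool.Agent.H620R2.GaugeR.R12

/-!
# Task X10: `P^NP` is contained in the polynomial hierarchy
-/

namespace Pool.Agent.H752.NX

open Pool.Agent.NPC Pool.Agent.H620R2.Gauge Pool.Agent.H752.GE Finset

namespace X10

/-- the algorithm asks a question after the answers `a` -/
def ask (M : Alg) (x a : List Bool) : Prop := (M.D (pairBits x a)).head? = some false

/-- the question, or the output -/
def qs (M : Alg) (x a : List Bool) : List Bool := (M.D (pairBits x a)).tail

/-- the answers `c` (after `a`) are correct -/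
def Cor (M : Alg) (B : Oracle) (x a d : List Bool) : Prop :=
  ∀ (i : ℕ) (h : i < d.length), ask M x (a ++ d.take i) ∧ d[i] = B (qs M x (a ++ d.take i))

theorem cor_cons {M : Alg} {B : Oracle} {x a c : List Bool} {b : Bool} :
    Cor M B x a (b :: c) ↔ (ask M x a ∧ b = B (qs M x a)) ∧ Cor M B x (a ++ [b]) c := by
  constructor
  · intro h
    refine ⟨?_, fun i hi => ?_⟩
    · have h0 := h 0 (by simp)
      simpa using h0
    · have h1 := h (i + 1) (by simpa using hi)
      simpa using h1
  · rintro ⟨h0, h1⟩ i hi
    cases i with
    | zero => simpa using h0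
    | succ i =>
      have h2 := h1 i (by simpa using hi)
      simpa using h2

theorem run_path (M : Alg) (B : Oracle) (x z : List Bool) : ∀ (n : ℕ) (a : List Bool),
    M.run B x n a = some z → ∃ c : List Bool, c.length < n ∧ Cor M B x a c ∧
      ¬ ask M x (a ++ c) ∧ qs M x (a ++ c) = z := by
  intro n
  induction n with
  | zero => intro a h; simp [Alg.run] at h
  | succ n ih =>
    intro a h
    rw [A2.run_succ] at h
    split_ifs at h with h1
    · obtain ⟨c, h2, h3, h4, h5⟩ := ih _ h
      refine ⟨B (qs M x a) :: c, by simpa using h2, cor_cons.2 ⟨⟨h1, rfl⟩, h3⟩, ?_, ?_⟩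
      · rw [show a ++ B (qs M x a) :: c = (a ++ [B (qs M x a)]) ++ c by simp]
        exact h4
      · rw [show a ++ B (qs M x a) :: c = (a ++ [B (qs M x a)]) ++ c by simp]
        exact h5
    · refine ⟨[], by simp, fun i hi => by simp at hi, by rw [List.append_nil]; exact h1, ?_⟩
      rw [List.append_nil]
      exact Option.some.inj h

theorem run_unique (M : Alg) (B : Oracle) (x z : List Bool) : ∀ (n : ℕ) (a c : List Bool),
    M.run B x n a = some z → Cor M B x a c → ¬ ask M x (a ++ c) → qs M x (a ++ c) = z := by
  intro n
  induction n with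
  | zero => intro a c h; simp [Alg.run] at h
  | succ n ih =>
    intro a c h hc hn
    rw [A2.run_succ] at h
    split_ifs at h with h1
    · cases c with
      | nil =>
        rw [List.append_nil] at hn
        exact absurd h1 hn
      | cons b c =>
        obtain ⟨⟨_, h3⟩, h4⟩ := cor_cons.1 hc
        rw [show a ++ b :: c = (a ++ [b]) ++ c by simp] at hn ⊢
        refine ih (a ++ [b]) c ?_ h4 hn
        rw [h3]
        exact h
    · cases c with
      | nil =>
        rw [List.append_nil]
        exact Option.some.inj h
      | cons b c =>
        exact absurd (cor_cons.1 hc).1.1 h1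

/-! ### The verifier -/

/-- decoding of the first certificate -/
def dcd (s : List Bool) : List Bool × List (List Bool) :=
  (unbits (List Bool × List (List Bool)) s).getD ([], [])

theorem dcd_bits (s : List Bool × List (List Bool)) : dcd (bits s) = s := by
  unfold dcd
  rw [unbits_bits]
  rfl

theorem poly_dcd : Poly dcd :=
  (Poly.optCases (o := unbits (List Bool × List (List Bool)))
    (g := fun _ => (([], []) : List Bool × List (List Bool))) (h := fun _ b => b)
    poly_unbits (NPC.Poly.const _) (Poly.snd Poly.id)).congr fun s => by
      unfold dcd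
      cases unbits (List Bool × List (List Bool)) s <;> rfl

/-- the input -/
def xx (y : List Bool) : List Bool := (unpair (unpair y).2).2
/-- the number of the question -/
def kq (y : List Bool) : ℕ := (unpair (unpair y).1).1.length
/-- the possible witness -/
def vv (y : List Bool) : List Bool := (unpair (unpair y).1).2
/-- the answers -/
def aa (y : List Bool) : List Bool := (dcd (unpair (unpair y).2).1).1
/-- the witnesses for the positive answers -/
def us (y : List Bool) : List (List Bool) := (dcd (unpair (unpair y).2).1).2
/-- the action at the question -/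
def act (M : Alg) (y : List Bool) : List Bool := M.D (pairBits (xx y) ((aa y).take (kq y)))
/-- the last action -/
def las (M : Alg) (y : List Bool) : List Bool := M.D (pairBits (xx y) (aa y))
/-- the answer -/
def bb (y : List Bool) : Bool := (aa y)[kq y]?.getD false
/-- the witness in question -/
def uu (y : List Bool) : List Bool := if bb y = true then (us y)[kq y]?.getD [] else vv y
/-- the input of the verifier -/
def gg (M : Alg) (y : List Bool) : List Bool := pairBits (uu y) (act M y).tail

/-- the test -/
noncomputable def chk (M : Alg) (p : Polynomial ℕ) (y r : List Bool) : Bool :=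
  (decide ((aa y).length ≤ M.p.eval (xx y).length) &&
    (!decide ((las M y).head? = some false) && decide ((las M y).tail = [true]))) &&
  (!decide (kq y < (aa y).length) || (decide ((act M y).head? = some false) &&
    decide ((decide ((uu y).length ≤ p.eval (act M y).tail.length) && decide (r = [true])) =
      bb y)))

/-- the output -/
noncomputable def outp (M : Alg) (p : Polynomial ℕ) (t : List Bool × List Bool × List Bool) :
    List Bool := if chk M p t.1 t.2.2 = true then [true] else []

/-- the input of the given verifier -/
def inpt (M : Alg) (t : List Bool × List Bool) : List Bool := gg M t.1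

/-- the verifier -/
noncomputable def ver (M : Alg) (p : Polynomial ℕ) (V : List Bool → List Bool) (y : List Bool) :
    List Bool := outp M p (y, y, V (inpt M (y, y)))

theorem poly_xx : Poly xx := Poly.snd (poly_unpair.comp (Poly.snd poly_unpair))
theorem poly_kq : UPoly kq := UPoly.length (Poly.fst (poly_unpair.comp (Poly.fst poly_unpair)))
theorem poly_vv : Poly vv := Poly.snd (poly_unpair.comp (Poly.fst poly_unpair))
theorem poly_aa : Poly aa :=
  Poly.fst (poly_dcd.comp (Poly.fst (poly_unpair.comp (Poly.snd poly_unpair))))
theorem poly_us : Poly us :=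
  Poly.snd (poly_dcd.comp (Poly.fst (poly_unpair.comp (Poly.snd poly_unpair))))
theorem poly_act (M : Alg) : Poly (act M) :=
  (H622R2.poly_of_polyTime M.poly).comp
    (H622R2.poly_pairBits poly_xx (R12.poly_take poly_aa poly_kq))
theorem poly_las (M : Alg) : Poly (las M) :=
  (H622R2.poly_of_polyTime M.poly).comp (H622R2.poly_pairBits poly_xx poly_aa)
theorem poly_getD {α β : Type} [TEnc α] [TEnc β] {l : α → List β} {n : α → ℕ} (d : β)
    (hl : Poly l) (hn : Poly n) : Poly (fun a => (l a)[n a]?.getD d) :=
  (Poly.optCases (o := fun a => (l a)[n a]?) (g := fun _ => d) (h := fun _ b => b)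
    (Poly.getElem? hl hn) (NPC.Poly.const _) (Poly.snd Poly.id)).congr fun a => by
      cases (l a)[n a]? <;> rfl
theorem poly_bb : Poly bb := poly_getD false poly_aa poly_kq.toPoly
theorem poly_uu : Poly uu :=
  Poly.ite (Poly.decide_bool poly_bb) (poly_getD [] poly_us poly_kq.toPoly) poly_vv
theorem poly_gg (M : Alg) : Poly (gg M) :=
  H622R2.poly_pairBits poly_uu (Poly.tail (poly_act M))

theorem poly_chk (M : Alg) (p : Polynomial ℕ) :
    Poly (fun t : List Bool × List Bool => chk M p t.1 t.2) := by
  have f : ∀ {β : Type} [TEnc β] {h : List Bool → β}, Poly h →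
      Poly (fun t : List Bool × List Bool => h t.1) := fun hh => hh.comp (Poly.fst Poly.id)
  have h1 : Poly (fun y => decide ((aa y).length ≤ M.p.eval (xx y).length)) :=
    Poly.decide_le (Poly.length poly_aa) (UPoly.eval (UPoly.length poly_xx) M.p).toPoly
  have h2 : Poly (fun y => !decide ((las M y).head? = some false)) :=
    Poly.not (Poly.decide_eq (Poly.head? (poly_las M)) (NPC.Poly.const _))
  have h3 : Poly (fun y => decide ((las M y).tail = [true])) :=
    Poly.decide_eq (Poly.tail (poly_las M)) (NPC.Poly.const _)
  have h4 : Poly (fun y => !decide (kq y < (aa y).length)) :=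
    Poly.not (Poly.decide_lt poly_kq.toPoly (Poly.length poly_aa))
  have h5 : Poly (fun y => decide ((act M y).head? = some false)) :=
    Poly.decide_eq (Poly.head? (poly_act M)) (NPC.Poly.const _)
  have h6 : Poly (fun y => decide ((uu y).length ≤ p.eval (act M y).tail.length)) :=
    Poly.decide_le (Poly.length poly_uu) (UPoly.eval (UPoly.length (Poly.tail (poly_act M))) p).toPoly
  have h7 : Poly (fun t : List Bool × List Bool => decide (t.2 = [true])) :=
    Poly.decide_eq (Poly.snd Poly.id) (NPC.Poly.const _)
  exact Poly.and (Poly.and (f h1) (Poly.and (f h2) (f h3)))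
    (Poly.or (f h4) (Poly.and (f h5) (Poly.decide_eq (Poly.and (f h6) h7) (f poly_bb))))

theorem poly_inpt (M : Alg) : Poly (inpt M) := (poly_gg M).comp (Poly.fst Poly.id)

theorem poly_outp (M : Alg) (p : Polynomial ℕ) : Poly (outp M p) := by
  have h1 : Poly (fun t : List Bool × List Bool × List Bool => chk M p t.1 t.2.2) :=
    Poly.comp (g := fun t : List Bool × List Bool => chk M p t.1 t.2)
      (f := fun t : List Bool × List Bool × List Bool => (t.1, t.2.2)) (poly_chk M p)
      (Poly.pair (Poly.fst Poly.id) (Poly.snd (Poly.snd Poly.id)))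
  exact Poly.ite (Poly.decide_bool h1) (NPC.Poly.const [true]) (NPC.Poly.const [])

theorem isFP_ver {A : Oracle} (M : Alg) (p : Polynomial ℕ) {V : List Bool → List Bool}
    (hV : IsFP A V) : IsFP A (ver M p V) := by
  have h := IsFP.seq (F := fun y => y) (G := V) (φ := inpt M) (ψ := outp M p)
    (IsFP.of_poly (A := A) (F := fun y => y) Poly.id) hV (poly_inpt M) (poly_outp M p)
  exact h

theorem ver_iff (M : Alg) (p : Polynomial ℕ) (V : List Bool → List Bool) (y : List Bool) :
    ver M p V y = [true] ↔ ((aa y).length ≤ M.p.eval (xx y).length ∧ ¬ ask M (xx y) (aa y) ∧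
      qs M (xx y) (aa y) = [true]) ∧ (kq y < (aa y).length →
        ask M (xx y) ((aa y).take (kq y)) ∧
        (((uu y).length ≤ p.eval (qs M (xx y) ((aa y).take (kq y))).length ∧
          V (pairBits (uu y) (qs M (xx y) ((aa y).take (kq y)))) = [true]) ↔ bb y = true)) := by
  have h0 : ver M p V y = [true] ↔ chk M p y (V (gg M y)) = true := by
    change (if chk M p y (V (gg M y)) = true then [true] else []) = [true] ↔ _
    split_ifs with h
    · simp [h]
    · simp [h]
  rw [h0]
  unfold chk
  simp only [Bool.and_eq_true, Bool.or_eq_true, Bool.not_eq_true', decide_eq_true_eq,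
    decide_eq_false_iff_not]
  have h8 : ∀ (P : Bool), (P = bb y) ↔ (P = true ↔ bb y = true) := by
    intro P
    cases P <;> cases bb y <;> simp
  rw [h8]
  simp only [Bool.and_eq_true, decide_eq_true_eq]
  constructor
  · rintro ⟨h1, h2⟩
    refine ⟨h1, fun h3 => ?_⟩
    rcases h2 with h2 | h2
    · exact absurd h3 h2
    · exact h2
  · rintro ⟨h1, h2⟩
    refine ⟨h1, ?_⟩
    by_cases h3 : kq y < (aa y).length
    · exact Or.inr (h2 h3)
    · exact Or.inl h3

end X10

open X10 in
theorem t_ph : St_ph := by
  classical
  rintro A L ⟨B, ⟨V, p, hV, hB⟩, F, ⟨M, hM⟩, hL⟩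
  obtain ⟨b, hb⟩ := A2.act_bound M
  -- the witnesses
  have hw : ∀ q : List Bool, ∃ w : List Bool, w.length ≤ p.eval q.length ∧
      (B q = true → V (pairBits w q) = [true]) := by
    intro q
    by_cases h : B q = true
    · obtain ⟨w, h1, h2⟩ := (hB q).1 h
      exact ⟨w, h1, fun _ => h2⟩
    · exact ⟨[], by simp, fun h' => absurd h' h⟩
  choose wit hwl hwV using hw
  set P1 : Polynomial ℕ := (Polynomial.C 4 * M.p + Polynomial.C 1) +
    (M.p * (Polynomial.C 4 * p.comp b + Polynomial.C 1 + Polynomial.C 1) + Polynomial.C 1) +
    Polynomial.C 1 with hP1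
  set P2 : Polynomial ℕ := Polynomial.C 2 * M.p + p.comp b + Polynomial.C 1 with hP2
  have hP1e : ∀ n, P1.eval n = (4 * M.p.eval n + 1) +
      (M.p.eval n * (4 * p.eval (b.eval n) + 1 + 1) + 1) + 1 := by
    intro n
    rw [hP1]
    simp [Polynomial.eval_comp]
  have hP2e : ∀ n, P2.eval n = 2 * M.p.eval n + p.eval (b.eval n) + 1 := by
    intro n
    rw [hP2]
    simp [Polynomial.eval_comp]
  have hql : ∀ x a : List Bool, a.length ≤ M.p.eval x.length →
      (qs M x a).length ≤ b.eval x.length := by
    intro x a ha
    have h1 := hb x a ha
    unfold qs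
    rw [List.length_tail]
    omega
  refine ⟨ver M p V, P1 + P2, 2, isFP_ver M p hV, fun x => ?_⟩
  have hm : (P1 + P2).eval x.length = P1.eval x.length + P2.eval x.length := by simp
  rw [hm]
  change x ∈ L ↔ ∃ w : List Bool, w.length ≤ P1.eval x.length + P2.eval x.length ∧
    ∀ w' : List Bool, w'.length ≤ P1.eval x.length + P2.eval x.length →
      ver M p V (pairBits w' (pairBits w x)) = [true]
  have hxx : ∀ w' w : List Bool, xx (pairBits w' (pairBits w x)) = x := by
    intro w' w
    unfold xx
    rw [unpair_pairBits]
    simp only [unpair_pairBits]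
  have haa : ∀ w' w : List Bool, aa (pairBits w' (pairBits w x)) = (dcd w).1 := by
    intro w' w
    unfold aa
    rw [unpair_pairBits]
    simp only [unpair_pairBits]
  have hus : ∀ w' w : List Bool, us (pairBits w' (pairBits w x)) = (dcd w).2 := by
    intro w' w
    unfold us
    rw [unpair_pairBits]
    simp only [unpair_pairBits]
  have hout := hM x
  rw [hL x]
  constructor
  · intro hx
    obtain ⟨c, hc1, hc2, hc3, hc4⟩ := run_path M B x (F x) _ _ hout
    rw [List.nil_append] at hc3 hc4
    set uw : List (List Bool) := (List.range c.length).map (fun i => wit (qs M x (c.take i)))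
      with huw
    have hlen : (bits (c, uw)).length ≤ P1.eval x.length := by
      rw [bits_length, sz_pair, hP1e]
      have h1 := sz_listBool_le c
      have h2 := sz_le_length_mul uw (4 * p.eval (b.eval x.length) + 1) (by
        intro u hu
        rw [huw, List.mem_map] at hu
        obtain ⟨i, hi, rfl⟩ := hu
        have h3 := sz_listBool_le (wit (qs M x (c.take i)))
        have h4 := hwl (qs M x (c.take i))
        have h5 := hql x (c.take i) (by rw [List.length_take]; omega)
        have h6 := eval_mono p h5
        omega)
      have h3 : uw.length = c.length := by rw [huw, List.length_map, List.length_range]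
      rw [h3] at h2
      have h4 : c.length * (4 * p.eval (b.eval x.length) + 1 + 1) ≤
          M.p.eval x.length * (4 * p.eval (b.eval x.length) + 1 + 1) :=
        Nat.mul_le_mul_right _ hc1.le
      omega
    refine ⟨bits (c, uw), by omega, fun w' _ => ?_⟩
    rw [ver_iff, hxx, haa, dcd_bits]
    refine ⟨⟨hc1.le, hc3, by rw [hc4]; exact hx⟩, fun hk => ?_⟩
    have h1 := hc2 _ hk
    rw [List.nil_append] at h1
    refine ⟨h1.1, ?_⟩
    have hbb : bb (pairBits w' (pairBits (bits (c, uw)) x)) =
        B (qs M x (c.take (kq (pairBits w' (pairBits (bits (c, uw)) x))))) := by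
      unfold bb
      rw [haa, dcd_bits]
      simp only
      rw [List.getElem?_eq_getElem hk, Option.getD_some]
      exact h1.2
    generalize hkq : kq (pairBits w' (pairBits (bits (c, uw)) x)) = k at *
    constructor
    · rintro ⟨h2, h3⟩
      rw [hbb]
      exact (hB _).2 ⟨_, h2, h3⟩
    · intro h2
      have h3 : uu (pairBits w' (pairBits (bits (c, uw)) x)) = wit (qs M x (c.take k)) := by
        unfold uu
        rw [if_pos h2, hus, dcd_bits, hkq]
        simp only
        have h4 : k < uw.length := by rw [huw, List.length_map, List.length_range]; exact hk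
        rw [List.getElem?_eq_getElem h4, Option.getD_some]
        simp [huw]
      rw [h3]
      rw [hbb] at h2
      exact ⟨hwl _, hwV _ h2⟩
  · rintro ⟨w, _, hw⟩
    set a := (dcd w).1 with ha
    have hgood : ∀ (i : ℕ) (v : List Bool), 2 * i + v.length + 1 ≤ P2.eval x.length →
        ver M p V (pairBits (pairBits (List.replicate i true) v) (pairBits w x)) = [true] := by
      intro i v hiv
      apply hw
      rw [A2.length_pairBits, List.length_replicate]
      omega
    have hkq : ∀ (i : ℕ) (v : List Bool),
        kq (pairBits (pairBits (List.replicate i true) v) (pairBits w x)) = i := by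
      intro i v
      unfold kq
      rw [unpair_pairBits]
      simp only [unpair_pairBits]
      exact List.length_replicate
    have hvv : ∀ (i : ℕ) (v : List Bool),
        vv (pairBits (pairBits (List.replicate i true) v) (pairBits w x)) = v := by
      intro i v
      unfold vv
      rw [unpair_pairBits]
      simp only [unpair_pairBits]
    have h0 := hgood 0 [] (by rw [hP2e]; simp)
    rw [ver_iff, hxx, haa] at h0
    obtain ⟨⟨h1, h2, h3⟩, -⟩ := h0
    rw [← ha] at h1 h2 h3
    have hcor : Cor M B x [] a := by
      intro i hi
      rw [List.nil_append]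
      have h4 : (qs M x (a.take i)).length ≤ b.eval x.length :=
        hql x (a.take i) (by rw [List.length_take]; omega)
      have h5 := eval_mono p h4
      have h6 : ∀ v : List Bool, v.length ≤ p.eval (qs M x (a.take i)).length →
          ask M x (a.take i) ∧
          (((uu (pairBits (pairBits (List.replicate i true) v) (pairBits w x))).length ≤
            p.eval (qs M x (a.take i)).length ∧
            V (pairBits (uu (pairBits (pairBits (List.replicate i true) v) (pairBits w x)))
              (qs M x (a.take i))) = [true]) ↔ a[i] = true) := by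
        intro v hv
        have h7 := hgood i v (by rw [hP2e]; omega)
        rw [ver_iff, hxx, haa, hkq] at h7
        have h8 := h7.2 hi
        have h9 : bb (pairBits (pairBits (List.replicate i true) v) (pairBits w x)) = a[i] := by
          unfold bb
          rw [haa, hkq, List.getElem?_eq_getElem hi, Option.getD_some]
        rw [h9] at h8
        exact h8
      have h7 := h6 [] (by simp)
      refine ⟨h7.1, ?_⟩
      rw [Bool.eq_iff_iff]
      constructor
      · intro h8
        obtain ⟨h9, h10⟩ := h7.2.2 h8
        exact (hB _).2 ⟨_, h9, h10⟩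
      · intro h8
        by_contra h9
        obtain ⟨v, h10, h11⟩ := (hB _).1 h8
        have h12 := h6 v h10
        have h13 : uu (pairBits (pairBits (List.replicate i true) v) (pairBits w x)) = v := by
          unfold uu
          rw [if_neg, hvv]
          unfold bb
          rw [haa, hkq, List.getElem?_eq_getElem hi, Option.getD_some]
          exact h9
        rw [h13] at h12
        exact h9 (h12.2.1 ⟨h10, h11⟩)
    have h4 := run_unique M B x (F x) _ _ a hout hcor (by rw [List.nil_append]; exact h2)
    rw [List.nil_append] at h4
    rw [← h4]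
    exact h3

end Pool.Agent.H752.NX
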